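import Mathlib

/-!
# Dyadic cells, Haar coefficients, Bessel, Hölder majorants (project GSC, section 3, (L1))

`F` is a Lipschitz function (`F = ∫ b`, `|b| ≤ η`).  Cells of level `n` of the grid with origin `s`:
`[s + j/2^n, s + (j+1)/2^n]`, `j : ℕ`.
`mn F s n j` is the mean of `b` on the cell, `Dl F s n j` the Haar coefficient, `mA`, `mB` the
majorants of depth `d`.
-/

set_option autoImplicit false
open Finset

namespace Pool.Agent.H14.GSC

/-- left end of the cell `(n,j)` of the grid with origin `s` -/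
noncomputable def cl (s : ℝ) (n j : ℕ) : ℝ := s + j / 2 ^ n

/-- right end of the cell `(n,j)` -/
noncomputable def cr (s : ℝ) (n j : ℕ) : ℝ := s + (j + 1) / 2 ^ n

/-- mean slope of `F` on the cell -/
noncomputable def mn (F : ℝ → ℝ) (s : ℝ) (n j : ℕ) : ℝ := 2 ^ n * (F (cr s n j) - F (cl s n j))

/-- Haar coefficient of the cell -/
noncomputable def Dl (F : ℝ → ℝ) (s : ℝ) (n j : ℕ) : ℝ :=
  (mn F s (n + 1) (2 * j + 1) - mn F s (n + 1) (2 * j)) / 2

theorem cl_left (s : ℝ) (n j : ℕ) : cl s (n + 1) (2 * j) = cl s n j := by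
  unfold cl
  have h : (2 : ℝ) ^ n ≠ 0 := by positivity
  push_cast
  rw [pow_succ]
  field_simp

theorem cr_right (s : ℝ) (n j : ℕ) : cr s (n + 1) (2 * j + 1) = cr s n j := by
  unfold cr
  have h : (2 : ℝ) ^ n ≠ 0 := by positivity
  push_cast
  rw [pow_succ]
  field_simp
  ring

theorem cr_left (s : ℝ) (n j : ℕ) : cr s (n + 1) (2 * j) = cl s (n + 1) (2 * j + 1) := by
  unfold cr cl
  push_cast
  ring

theorem cr_sub_cl (s : ℝ) (n j : ℕ) : cr s n j - cl s n j = (1 / 2) ^ n := by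
  unfold cr cl
  have h : (2 : ℝ) ^ n ≠ 0 := by positivity
  rw [one_div, inv_pow]
  field_simp
  ring

theorem cl_le_cr (s : ℝ) (n j : ℕ) : cl s n j ≤ cr s n j := by
  have h := cr_sub_cl s n j
  have h2 : (0 : ℝ) < (1 / 2) ^ n := by positivity
  linarith

theorem mid_eq (s : ℝ) (n j : ℕ) : cr s (n + 1) (2 * j) - cl s n j = (1 / 2) ^ (n + 1) := by
  rw [← cl_left]
  exact cr_sub_cl s (n + 1) (2 * j)

theorem mid_eq' (s : ℝ) (n j : ℕ) : cr s n j - cr s (n + 1) (2 * j) = (1 / 2) ^ (n + 1) := by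
  rw [cr_left, ← cr_right]
  exact cr_sub_cl s (n + 1) (2 * j + 1)

theorem mn_spec (F : ℝ → ℝ) (s : ℝ) (n j : ℕ) :
    F (cr s n j) - F (cl s n j) = mn F s n j * (1 / 2) ^ n := by
  unfold mn
  have h : (2 : ℝ) ^ n ≠ 0 := by positivity
  rw [one_div, inv_pow]
  field_simp

theorem mn_avg (F : ℝ → ℝ) (s : ℝ) (n j : ℕ) :
    mn F s n j = (mn F s (n + 1) (2 * j) + mn F s (n + 1) (2 * j + 1)) / 2 := by
  unfold mn
  rw [cl_left, cr_right, cr_left, pow_succ]
  ring

theorem mn_left (F : ℝ → ℝ) (s : ℝ) (n j : ℕ) :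
    mn F s (n + 1) (2 * j) = mn F s n j - Dl F s n j := by
  rw [mn_avg F s n j]
  unfold Dl
  ring

theorem mn_right (F : ℝ → ℝ) (s : ℝ) (n j : ℕ) :
    mn F s (n + 1) (2 * j + 1) = mn F s n j + Dl F s n j := by
  rw [mn_avg F s n j]
  unfold Dl
  ring

theorem mn_child (F : ℝ → ℝ) (s : ℝ) (n j : ℕ) :
    |mn F s (n + 1) j - mn F s n (j / 2)| = |Dl F s n (j / 2)| := by
  rcases Nat.even_or_odd' j with ⟨k, rfl | rfl⟩
  · have h : 2 * k / 2 = k := by omega
    rw [h, mn_left, show mn F s n k - Dl F s n k - mn F s n k = -(Dl F s n k) by ring, abs_neg]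
  · have h : (2 * k + 1) / 2 = k := by omega
    rw [h, mn_right, show mn F s n k + Dl F s n k - mn F s n k = Dl F s n k by ring]

/-- splitting a sum over the cells of level `n+1` -/
theorem sum_split (f : ℕ → ℝ) (m : ℕ) :
    ∑ j ∈ range (2 * m), f j = ∑ j ∈ range m, (f (2 * j) + f (2 * j + 1)) := by
  induction m with
  | zero => simp
  | succ m ih =>
    rw [show 2 * (m + 1) = 2 * m + 1 + 1 by ring, sum_range_succ, sum_range_succ, ih,
      sum_range_succ]
    ring

/-- energy of the Haar coefficients of level `n` -/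
noncomputable def EDl (F : ℝ → ℝ) (s : ℝ) (J n : ℕ) : ℝ :=
  ∑ j ∈ range (J * 2 ^ n), (1 / 2) ^ n * (Dl F s n j) ^ 2

/-- energy of the means of level `n` -/
noncomputable def Emn (F : ℝ → ℝ) (s : ℝ) (J n : ℕ) : ℝ :=
  ∑ j ∈ range (J * 2 ^ n), (1 / 2) ^ n * (mn F s n j) ^ 2

theorem parseval (F : ℝ → ℝ) (s : ℝ) (J n : ℕ) :
    Emn F s J n + EDl F s J n = Emn F s J (n + 1) := by
  unfold Emn EDl
  rw [show J * 2 ^ (n + 1) = 2 * (J * 2 ^ n) by rw [pow_succ]; ring, sum_split,
    ← sum_add_distrib]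
  refine sum_congr rfl fun j _ => ?_
  rw [mn_left, mn_right, pow_succ (1 / 2 : ℝ)]
  ring

theorem EDl_nonneg (F : ℝ → ℝ) (s : ℝ) (J n : ℕ) : 0 ≤ EDl F s J n := by
  unfold EDl
  positivity

theorem abs_mn_le (F : ℝ → ℝ) (η : ℝ) (hF : ∀ x y, |F y - F x| ≤ η * |y - x|) (s : ℝ)
    (n j : ℕ) : |mn F s n j| ≤ η := by
  unfold mn
  have h := hF (cl s n j) (cr s n j)
  rw [cr_sub_cl, abs_of_nonneg (by positivity : (0 : ℝ) ≤ (1 / 2) ^ n)] at h
  rw [abs_mul, abs_of_nonneg (by positivity : (0 : ℝ) ≤ 2 ^ n)]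
  calc (2 : ℝ) ^ n * |F (cr s n j) - F (cl s n j)| ≤ 2 ^ n * (η * (1 / 2) ^ n) := by
        gcongr
    _ = η := by
        rw [one_div, inv_pow]
        have h : (2 : ℝ) ^ n ≠ 0 := by positivity
        field_simp

theorem Emn_le (F : ℝ → ℝ) (η : ℝ) (hF : ∀ x y, |F y - F x| ≤ η * |y - x|) (s : ℝ)
    (J n : ℕ) : Emn F s J n ≤ J * η ^ 2 := by
  unfold Emn
  calc ∑ j ∈ range (J * 2 ^ n), (1 / 2 : ℝ) ^ n * (mn F s n j) ^ 2
      ≤ ∑ j ∈ range (J * 2 ^ n), (1 / 2 : ℝ) ^ n * η ^ 2 := by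
        refine sum_le_sum fun j _ => ?_
        have h := abs_mn_le F η hF s n j
        have h1 : (mn F s n j) ^ 2 ≤ η ^ 2 := by
          rw [← sq_abs (mn F s n j)]
          exact pow_le_pow_left₀ (abs_nonneg _) h 2
        exact mul_le_mul_of_nonneg_left h1 (by positivity)
    _ = J * η ^ 2 := by
        rw [sum_const, card_range, nsmul_eq_mul]
        push_cast
        rw [one_div, inv_pow]
        have h : (2 : ℝ) ^ n ≠ 0 := by positivity
        field_simp

/-- Bessel's inequality -/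
theorem bessel (F : ℝ → ℝ) (η : ℝ) (hF : ∀ x y, |F y - F x| ≤ η * |y - x|) (s : ℝ)
    (J M : ℕ) : ∑ n ∈ range M, EDl F s J n ≤ J * η ^ 2 := by
  have h : ∑ n ∈ range M, EDl F s J n = Emn F s J M - Emn F s J 0 := by
    rw [← sum_range_sub]
    refine sum_congr rfl fun n _ => ?_
    have := parseval F s J n
    linarith
  rw [h]
  have h1 := Emn_le F η hF s J M
  have h2 : 0 ≤ Emn F s J 0 := by unfold Emn; positivity
  linarith

/-! ### the Hölder majorants -/

/-- `κ = 2^(-3/4)` -/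
noncomputable def kap : ℝ := (1 / 2 : ℝ) ^ (3 / 4 : ℝ)

theorem kap_nonneg : 0 ≤ kap := by unfold kap; positivity

theorem kap_sq_le : kap ^ 2 ≤ 36 / 100 := by
  have h : kap ^ 4 = 1 / 8 := by
    unfold kap
    rw [← Real.rpow_natCast, ← Real.rpow_mul (by norm_num)]
    norm_num
  nlinarith [sq_nonneg kap]

/-- the gauge `ℓ (z/ℓ)^(1/4)` of a cell of length `ℓ = 2^(-n)` -/
noncomputable def wg (n : ℕ) (z : ℝ) : ℝ := (1 / 2) ^ n * (z * 2 ^ n) ^ (1 / 4 : ℝ)

theorem wg_nonneg (n : ℕ) (z : ℝ) (hz : 0 ≤ z) : 0 ≤ wg n z := by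
  unfold wg; positivity

theorem wg_mono (n : ℕ) {z z' : ℝ} (hz : 0 ≤ z) (h : z ≤ z') : wg n z ≤ wg n z' := by
  unfold wg
  gcongr

theorem wg_succ (n : ℕ) (z : ℝ) (hz : 0 ≤ z) : wg (n + 1) z = kap * wg n z := by
  unfold wg kap
  rw [show z * 2 ^ (n + 1) = 2 * (z * 2 ^ n) by rw [pow_succ]; ring,
    Real.mul_rpow (by norm_num) (by positivity), pow_succ]
  have h : (2 : ℝ) ^ (1 / 4 : ℝ) / 2 = (1 / 2 : ℝ) ^ (3 / 4 : ℝ) := by
    have h1 : (1 / 2 : ℝ) ^ (3 / 4 : ℝ) = (2 : ℝ) ^ (-(3 / 4) : ℝ) := by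
      rw [Real.rpow_neg (by norm_num), one_div, Real.inv_rpow (by norm_num)]
    have h2 : (2 : ℝ) ^ (1 / 4 : ℝ) / 2 = (2 : ℝ) ^ (1 / 4 - 1 : ℝ) := by
      rw [Real.rpow_sub (by norm_num), Real.rpow_one]
    rw [h1, h2]
    norm_num
  rw [← h]
  ring

theorem le_wg (n : ℕ) (z : ℝ) (hz : 0 ≤ z) (hz' : z ≤ (1 / 2) ^ n) : z ≤ wg n z := by
  unfold wg
  have h2 : (2 : ℝ) ^ n ≠ 0 := by positivity
  have h0 : 0 ≤ z * 2 ^ n := by positivity
  have h1 : z * 2 ^ n ≤ 1 := by
    calc z * 2 ^ n ≤ (1 / 2) ^ n * 2 ^ n := by gcongr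
      _ = 1 := by rw [← mul_pow]; norm_num
  have h3 : z * 2 ^ n ≤ (z * 2 ^ n) ^ (1 / 4 : ℝ) := by
    calc z * 2 ^ n = (z * 2 ^ n) ^ (1 : ℝ) := by rw [Real.rpow_one]
      _ ≤ (z * 2 ^ n) ^ (1 / 4 : ℝ) := Real.rpow_le_rpow_of_exponent_ge' h0 h1 (by norm_num)
            (by norm_num)
  calc z = (1 / 2) ^ n * (z * 2 ^ n) := by
        rw [one_div, inv_pow]
        field_simp
    _ ≤ (1 / 2) ^ n * (z * 2 ^ n) ^ (1 / 4 : ℝ) := by gcongr

/-- majorant for the intervals with an end at an end of the cell -/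
noncomputable def mA (F : ℝ → ℝ) (η s : ℝ) : ℕ → ℕ → ℕ → ℝ
  | 0, _, _ => 2 * η
  | d + 1, n, j => |Dl F s n j| + kap * max (mA F η s d (n + 1) (2 * j))
      (mA F η s d (n + 1) (2 * j + 1))

/-- majorant for all intervals in the cell -/
noncomputable def mB (F : ℝ → ℝ) (η s : ℝ) : ℕ → ℕ → ℕ → ℝ
  | 0, _, _ => 2 * η
  | d + 1, n, j => (|Dl F s n j| + kap * (mA F η s d (n + 1) (2 * j) +
      mA F η s d (n + 1) (2 * j + 1))) + kap * max (mB F η s d (n + 1) (2 * j))
      (mB F η s d (n + 1) (2 * j + 1))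

theorem mA_nonneg (F : ℝ → ℝ) (η s : ℝ) (hη : 0 ≤ η) (d n j : ℕ) : 0 ≤ mA F η s d n j := by
  induction d generalizing n j with
  | zero => simp only [mA]; positivity
  | succ d ih =>
    simp only [mA]
    have h1 := ih (n + 1) (2 * j)
    have h2 := kap_nonneg
    have h3 : 0 ≤ max (mA F η s d (n + 1) (2 * j)) (mA F η s d (n + 1) (2 * j + 1)) :=
      le_trans h1 (le_max_left _ _)
    positivity

theorem mB_nonneg (F : ℝ → ℝ) (η s : ℝ) (hη : 0 ≤ η) (d n j : ℕ) : 0 ≤ mB F η s d n j := by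
  induction d generalizing n j with
  | zero => simp only [mB]; positivity
  | succ d ih =>
    simp only [mB]
    have h1 := ih (n + 1) (2 * j)
    have h2 := kap_nonneg
    have h3 : 0 ≤ max (mB F η s d (n + 1) (2 * j)) (mB F η s d (n + 1) (2 * j + 1)) :=
      le_trans h1 (le_max_left _ _)
    have h4 := mA_nonneg F η s hη d (n + 1) (2 * j)
    have h5 := mA_nonneg F η s hη d (n + 1) (2 * j + 1)
    positivity

/-- the trivial bound -/
theorem base_bound (F : ℝ → ℝ) (η : ℝ) (hη : 0 ≤ η) (hF : ∀ x y, |F y - F x| ≤ η * |y - x|)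
    (s : ℝ) (n j : ℕ) (x y : ℝ) (hx : cl s n j ≤ x) (hxy : x ≤ y) (hy : y ≤ cr s n j) :
    |F y - F x - mn F s n j * (y - x)| ≤ 2 * η * wg n (y - x) := by
  have h1 := hF x y
  rw [abs_of_nonneg (by linarith : (0 : ℝ) ≤ y - x)] at h1
  have h2 := abs_mn_le F η hF s n j
  have h3 : |mn F s n j * (y - x)| ≤ η * (y - x) := by
    rw [abs_mul, abs_of_nonneg (by linarith : (0 : ℝ) ≤ y - x)]
    exact mul_le_mul_of_nonneg_right h2 (by linarith)
  have h4 : y - x ≤ wg n (y - x) := by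
    apply le_wg n _ (by linarith)
    have := cr_sub_cl s n j
    linarith
  calc |F y - F x - mn F s n j * (y - x)| ≤ |F y - F x| + |mn F s n j * (y - x)| := abs_sub _ _
    _ ≤ 2 * η * (y - x) := by linarith
    _ ≤ 2 * η * wg n (y - x) := by gcongr

theorem mA_bound (F : ℝ → ℝ) (η : ℝ) (hη : 0 ≤ η) (hF : ∀ x y, |F y - F x| ≤ η * |y - x|)
    (s : ℝ) (d n j : ℕ) (y : ℝ) (hy : cl s n j ≤ y) (hy' : y ≤ cr s n j) :
    |F y - F (cl s n j) - mn F s n j * (y - cl s n j)| ≤ mA F η s d n j * wg n (y - cl s n j) ∧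
    |F (cr s n j) - F y - mn F s n j * (cr s n j - y)| ≤ mA F η s d n j * wg n (cr s n j - y) := by
  induction d generalizing n j y with
  | zero =>
    simp only [mA]
    exact ⟨base_bound F η hη hF s n j _ _ le_rfl hy hy', base_bound F η hη hF s n j _ _ hy hy' le_rfl⟩
  | succ d ih =>
    set l := cl s n j with hl
    set r := cr s n j with hr
    set c := cr s (n + 1) (2 * j) with hc
    have hcl : c - l = (1 / 2) ^ (n + 1) := mid_eq s n j
    have hrc : r - c = (1 / 2) ^ (n + 1) := mid_eq' s n j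
    have hrl : r - l = (1 / 2) ^ n := cr_sub_cl s n j
    have hpos : (0 : ℝ) < (1 / 2) ^ (n + 1) := by positivity
    have htot : F r - F l = mn F s n j * (r - l) := by
      rw [hrl]; exact mn_spec F s n j
    have hk := kap_nonneg
    -- the two children
    have hL : ∀ z, l ≤ z → z ≤ c →
        |F z - F l - mn F s n j * (z - l)| ≤ mA F η s (d + 1) n j * wg n (z - l) ∧
        |F c - F z - mn F s (n + 1) (2 * j) * (c - z)| ≤
          kap * mA F η s d (n + 1) (2 * j) * wg n (c - z) := by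
      intro z hz1 hz2
      have h := ih (n + 1) (2 * j) z (by rw [cl_left]; exact hz1) hz2
      rw [cl_left, ← hl, ← hc] at h
      rw [wg_succ n _ (by linarith), wg_succ n _ (by linarith)] at h
      have hz3 : z - l ≤ wg n (z - l) := le_wg n _ (by linarith) (by linarith)
      refine ⟨?_, ?_⟩
      · have e : F z - F l - mn F s n j * (z - l) =
            (F z - F l - mn F s (n + 1) (2 * j) * (z - l)) - Dl F s n j * (z - l) := by
          rw [mn_left]; ring
        have h1 : |Dl F s n j * (z - l)| ≤ |Dl F s n j| * wg n (z - l) := by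
          rw [abs_mul, abs_of_nonneg (by linarith : (0 : ℝ) ≤ z - l)]
          gcongr
        have h2 : mA F η s d (n + 1) (2 * j) * (kap * wg n (z - l)) ≤
            kap * max (mA F η s d (n + 1) (2 * j)) (mA F η s d (n + 1) (2 * j + 1)) *
              wg n (z - l) := by
          have h3 := le_max_left (mA F η s d (n + 1) (2 * j)) (mA F η s d (n + 1) (2 * j + 1))
          have h4 : 0 ≤ kap * wg n (z - l) := mul_nonneg hk (wg_nonneg n _ (by linarith))
          nlinarith [mul_le_mul_of_nonneg_right h3 h4]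
        calc |F z - F l - mn F s n j * (z - l)|
            ≤ |F z - F l - mn F s (n + 1) (2 * j) * (z - l)| + |Dl F s n j * (z - l)| := by
              rw [e]; exact abs_sub _ _
          _ ≤ mA F η s (d + 1) n j * wg n (z - l) := by
              simp only [mA]
              nlinarith [h.1, h1, h2]
      · calc |F c - F z - mn F s (n + 1) (2 * j) * (c - z)|
            ≤ mA F η s d (n + 1) (2 * j) * (kap * wg n (c - z)) := h.2
          _ = kap * mA F η s d (n + 1) (2 * j) * wg n (c - z) := by ring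
    have hR : ∀ z, c ≤ z → z ≤ r →
        |F r - F z - mn F s n j * (r - z)| ≤ mA F η s (d + 1) n j * wg n (r - z) := by
      intro z hz1 hz2
      have h := ih (n + 1) (2 * j + 1) z (by rw [← cr_left]; exact hz1) (by rw [cr_right]; exact hz2)
      rw [cr_right, ← hr, ← cr_left, ← hc] at h
      rw [wg_succ n _ (by linarith), wg_succ n _ (by linarith)] at h
      have hz3 : r - z ≤ wg n (r - z) := le_wg n _ (by linarith) (by linarith)
      have e : F r - F z - mn F s n j * (r - z) =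
          (F r - F z - mn F s (n + 1) (2 * j + 1) * (r - z)) + Dl F s n j * (r - z) := by
        rw [mn_right]; ring
      have h1 : |Dl F s n j * (r - z)| ≤ |Dl F s n j| * wg n (r - z) := by
        rw [abs_mul, abs_of_nonneg (by linarith : (0 : ℝ) ≤ r - z)]
        gcongr
      have h2 : mA F η s d (n + 1) (2 * j + 1) * (kap * wg n (r - z)) ≤
          kap * max (mA F η s d (n + 1) (2 * j)) (mA F η s d (n + 1) (2 * j + 1)) *
            wg n (r - z) := by
        have h3 := le_max_right (mA F η s d (n + 1) (2 * j)) (mA F η s d (n + 1) (2 * j + 1))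
        have h4 : 0 ≤ kap * wg n (r - z) := mul_nonneg hk (wg_nonneg n _ (by linarith))
        nlinarith [mul_le_mul_of_nonneg_right h3 h4]
      calc |F r - F z - mn F s n j * (r - z)|
          ≤ |F r - F z - mn F s (n + 1) (2 * j + 1) * (r - z)| + |Dl F s n j * (r - z)| := by
            rw [e]; exact abs_add_le _ _
        _ ≤ mA F η s (d + 1) n j * wg n (r - z) := by
            simp only [mA]
            nlinarith [h.2, h1, h2]
    have hA : 0 ≤ mA F η s (d + 1) n j := mA_nonneg F η s hη (d + 1) n j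
    rcases le_total y c with hyc | hyc
    · refine ⟨(hL y hy hyc).1, ?_⟩
      have e : F r - F y - mn F s n j * (r - y) = -(F y - F l - mn F s n j * (y - l)) := by
        linarith
      rw [e, abs_neg]
      refine le_trans (hL y hy hyc).1 ?_
      exact mul_le_mul_of_nonneg_left (wg_mono n (by linarith) (by linarith)) hA
    · refine ⟨?_, hR y hyc hy'⟩
      have e : F y - F l - mn F s n j * (y - l) = -(F r - F y - mn F s n j * (r - y)) := by
        linarith
      rw [e, abs_neg]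
      refine le_trans (hR y hyc hy') ?_
      exact mul_le_mul_of_nonneg_left (wg_mono n (by linarith) (by linarith)) hA

theorem mB_bound (F : ℝ → ℝ) (η : ℝ) (hη : 0 ≤ η) (hF : ∀ x y, |F y - F x| ≤ η * |y - x|)
    (s : ℝ) (d n j : ℕ) (x y : ℝ) (hx : cl s n j ≤ x) (hxy : x ≤ y) (hy : y ≤ cr s n j) :
    |F y - F x - mn F s n j * (y - x)| ≤ mB F η s d n j * wg n (y - x) := by
  induction d generalizing n j x y with
  | zero =>
    simp only [mB]
    exact base_bound F η hη hF s n j _ _ hx hxy hy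
  | succ d ih =>
    set l := cl s n j with hl
    set r := cr s n j with hr
    set c := cr s (n + 1) (2 * j) with hc
    have hcl : c - l = (1 / 2) ^ (n + 1) := mid_eq s n j
    have hrc : r - c = (1 / 2) ^ (n + 1) := mid_eq' s n j
    have hrl : r - l = (1 / 2) ^ n := cr_sub_cl s n j
    have hpos : (0 : ℝ) < (1 / 2) ^ (n + 1) := by positivity
    have hk := kap_nonneg
    have hw : 0 ≤ wg n (y - x) := wg_nonneg n _ (by linarith)
    have hw1 : y - x ≤ wg n (y - x) := le_wg n _ (by linarith) (by linarith)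
    have hB1 := mB_nonneg F η s hη d (n + 1) (2 * j)
    have hB2 := mB_nonneg F η s hη d (n + 1) (2 * j + 1)
    have hA1 := mA_nonneg F η s hη d (n + 1) (2 * j)
    have hA2 := mA_nonneg F η s hη d (n + 1) (2 * j + 1)
    have hm1 := le_max_left (mB F η s d (n + 1) (2 * j)) (mB F η s d (n + 1) (2 * j + 1))
    have hm2 := le_max_right (mB F η s d (n + 1) (2 * j)) (mB F η s d (n + 1) (2 * j + 1))
    have hkw : 0 ≤ kap * wg n (y - x) := mul_nonneg hk hw
    have hDw : 0 ≤ |Dl F s n j| * wg n (y - x) := mul_nonneg (abs_nonneg _) hw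
    simp only [mB]
    rcases le_total y c with hyc | hyc
    · -- left child
      have h := ih (n + 1) (2 * j) x y (by rw [cl_left]; exact hx) hxy hyc
      rw [wg_succ n _ (by linarith)] at h
      have e : F y - F x - mn F s n j * (y - x) =
          (F y - F x - mn F s (n + 1) (2 * j) * (y - x)) - Dl F s n j * (y - x) := by
        rw [mn_left]; ring
      have h1 : |Dl F s n j * (y - x)| ≤ |Dl F s n j| * wg n (y - x) := by
        rw [abs_mul, abs_of_nonneg (by linarith : (0 : ℝ) ≤ y - x)]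
        gcongr
      have h2 := mul_le_mul_of_nonneg_right hm1 hkw
      have h3 : 0 ≤ (mA F η s d (n + 1) (2 * j) + mA F η s d (n + 1) (2 * j + 1)) *
          (kap * wg n (y - x)) := by positivity
      calc |F y - F x - mn F s n j * (y - x)|
          ≤ |F y - F x - mn F s (n + 1) (2 * j) * (y - x)| + |Dl F s n j * (y - x)| := by
            rw [e]; exact abs_sub _ _
        _ ≤ _ := by nlinarith [h, h1, h2, h3]
    · rcases le_total c x with hcx | hcx
      · -- right child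
        have h := ih (n + 1) (2 * j + 1) x y (by rw [← cr_left]; exact hcx) hxy
          (by rw [cr_right]; exact hy)
        rw [wg_succ n _ (by linarith)] at h
        have e : F y - F x - mn F s n j * (y - x) =
            (F y - F x - mn F s (n + 1) (2 * j + 1) * (y - x)) + Dl F s n j * (y - x) := by
          rw [mn_right]; ring
        have h1 : |Dl F s n j * (y - x)| ≤ |Dl F s n j| * wg n (y - x) := by
          rw [abs_mul, abs_of_nonneg (by linarith : (0 : ℝ) ≤ y - x)]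
          gcongr
        have h2 := mul_le_mul_of_nonneg_right hm2 hkw
        have h3 : 0 ≤ (mA F η s d (n + 1) (2 * j) + mA F η s d (n + 1) (2 * j + 1)) *
            (kap * wg n (y - x)) := by positivity
        calc |F y - F x - mn F s n j * (y - x)|
            ≤ |F y - F x - mn F s (n + 1) (2 * j + 1) * (y - x)| + |Dl F s n j * (y - x)| := by
              rw [e]; exact abs_add_le _ _
          _ ≤ _ := by nlinarith [h, h1, h2, h3]
      · -- across the middle
        have h := (mA_bound F η hη hF s d (n + 1) (2 * j) x (by rw [cl_left]; exact hx) hcx).2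
        have h' := (mA_bound F η hη hF s d (n + 1) (2 * j + 1) y (by rw [← cr_left]; exact hyc)
          (by rw [cr_right]; exact hy)).1
        rw [wg_succ n _ (by linarith)] at h
        rw [← cr_left] at h'
        rw [wg_succ n _ (by linarith)] at h'
        rw [← hc] at h h'
        have hw2 : wg n (c - x) ≤ wg n (y - x) := wg_mono n (by linarith) (by linarith)
        have hw3 : wg n (y - c) ≤ wg n (y - x) := wg_mono n (by linarith) (by linarith)
        have e : F y - F x - mn F s n j * (y - x) =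
            ((F c - F x - mn F s (n + 1) (2 * j) * (c - x)) +
            (F y - F c - mn F s (n + 1) (2 * j + 1) * (y - c))) +
            Dl F s n j * ((y - c) - (c - x)) := by
          rw [mn_right, mn_left]; ring
        have h1 : |Dl F s n j * ((y - c) - (c - x))| ≤ |Dl F s n j| * wg n (y - x) := by
          rw [abs_mul]
          apply mul_le_mul_of_nonneg_left _ (abs_nonneg _)
          rw [abs_le]
          constructor <;> linarith
        have h4 : mA F η s d (n + 1) (2 * j) * (kap * wg n (c - x)) ≤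
            mA F η s d (n + 1) (2 * j) * (kap * wg n (y - x)) := by gcongr
        have h5 : mA F η s d (n + 1) (2 * j + 1) * (kap * wg n (y - c)) ≤
            mA F η s d (n + 1) (2 * j + 1) * (kap * wg n (y - x)) := by gcongr
        have h6 : 0 ≤ kap * max (mB F η s d (n + 1) (2 * j)) (mB F η s d (n + 1) (2 * j + 1)) *
            wg n (y - x) := by positivity
        calc |F y - F x - mn F s n j * (y - x)|
            ≤ |(F c - F x - mn F s (n + 1) (2 * j) * (c - x)) +
              (F y - F c - mn F s (n + 1) (2 * j + 1) * (y - c))| +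
              |Dl F s n j * ((y - c) - (c - x))| := by
              rw [e]; exact abs_add_le _ _
          _ ≤ |F c - F x - mn F s (n + 1) (2 * j) * (c - x)| +
              |F y - F c - mn F s (n + 1) (2 * j + 1) * (y - c)| +
              |Dl F s n j * ((y - c) - (c - x))| := by
              gcongr; exact abs_add_le _ _
          _ ≤ _ := by nlinarith [h, h', h1, h4, h5, h6]

/-! ### the energies of the majorants -/

noncomputable def EA (F : ℝ → ℝ) (η s : ℝ) (J d n : ℕ) : ℝ :=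
  ∑ j ∈ range (J * 2 ^ n), (1 / 2) ^ n * (mA F η s d n j) ^ 2

noncomputable def EB (F : ℝ → ℝ) (η s : ℝ) (J d n : ℕ) : ℝ :=
  ∑ j ∈ range (J * 2 ^ n), (1 / 2) ^ n * (mB F η s d n j) ^ 2

theorem young1 (x k u v : ℝ) (hk2 : k ^ 2 ≤ 36 / 100) : (x + k * max u v) ^ 2 ≤ 5 * x ^ 2 + 9 / 20 * (u ^ 2 + v ^ 2) := by
  have hm : (max u v) ^ 2 ≤ u ^ 2 + v ^ 2 := by
    rcases max_choice u v with h | h <;> rw [h] <;> nlinarith [sq_nonneg u, sq_nonneg v]
  have h1 : (x + k * max u v) ^ 2 ≤ 5 * x ^ 2 + 5 / 4 * (k * max u v) ^ 2 := by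
    nlinarith [sq_nonneg (4 * x - k * max u v)]
  have h2 : (k * max u v) ^ 2 ≤ 36 / 100 * (u ^ 2 + v ^ 2) := by
    rw [mul_pow]
    exact mul_le_mul hk2 hm (sq_nonneg _) (by norm_num)
  nlinarith

theorem EA_succ (F : ℝ → ℝ) (η s : ℝ) (hη : 0 ≤ η) (J d n : ℕ) :
    EA F η s J (d + 1) n ≤ 5 * EDl F s J n + 9 / 10 * EA F η s J d (n + 1) := by
  unfold EA EDl
  rw [show J * 2 ^ (n + 1) = 2 * (J * 2 ^ n) by rw [pow_succ]; ring, sum_split, mul_sum,
    mul_sum, ← sum_add_distrib]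
  refine sum_le_sum fun j _ => ?_
  simp only [mA]
  have h := young1 |Dl F s n j| kap (mA F η s d (n + 1) (2 * j)) (mA F η s d (n + 1) (2 * j + 1))
    kap_sq_le
  rw [sq_abs] at h
  have h2 : (0 : ℝ) < (1 / 2) ^ n := by positivity
  rw [pow_succ (1 / 2 : ℝ)]
  nlinarith [mul_le_mul_of_nonneg_left h h2.le]

theorem young2 (x k a b u v : ℝ) (hk2 : k ^ 2 ≤ 36 / 100) :
    ((x + k * (a + b)) + k * max u v) ^ 2 ≤ 10 * x ^ 2 + 8 * (a ^ 2 + b ^ 2) +
      9 / 20 * (u ^ 2 + v ^ 2) := by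
  have hm : (max u v) ^ 2 ≤ u ^ 2 + v ^ 2 := by
    rcases max_choice u v with h | h <;> rw [h] <;> nlinarith [sq_nonneg u, sq_nonneg v]
  have h1 : ((x + k * (a + b)) + k * max u v) ^ 2 ≤
      5 * (x + k * (a + b)) ^ 2 + 5 / 4 * (k * max u v) ^ 2 := by
    nlinarith [sq_nonneg (4 * (x + k * (a + b)) - k * max u v)]
  have h2 : (k * max u v) ^ 2 ≤ 36 / 100 * (u ^ 2 + v ^ 2) := by
    rw [mul_pow]
    exact mul_le_mul hk2 hm (sq_nonneg _) (by norm_num)
  have h3 : (x + k * (a + b)) ^ 2 ≤ 2 * x ^ 2 + 2 * (k * (a + b)) ^ 2 := by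
    nlinarith [sq_nonneg (x - k * (a + b))]
  have h4 : (k * (a + b)) ^ 2 ≤ 36 / 100 * (2 * (a ^ 2 + b ^ 2)) := by
    rw [mul_pow]
    exact mul_le_mul hk2 (by nlinarith [sq_nonneg (a - b)]) (sq_nonneg _) (by norm_num)
  nlinarith [sq_nonneg a, sq_nonneg b]

theorem EB_succ (F : ℝ → ℝ) (η s : ℝ) (hη : 0 ≤ η) (J d n : ℕ) :
    EB F η s J (d + 1) n ≤ 10 * EDl F s J n + 16 * EA F η s J d (n + 1) +
      9 / 10 * EB F η s J d (n + 1) := by
  unfold EA EB EDl
  rw [show J * 2 ^ (n + 1) = 2 * (J * 2 ^ n) by rw [pow_succ]; ring, sum_split, sum_split, mul_sum,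
    mul_sum, mul_sum, ← sum_add_distrib, ← sum_add_distrib]
  refine sum_le_sum fun j _ => ?_
  simp only [mB]
  have h := young2 |Dl F s n j| kap (mA F η s d (n + 1) (2 * j)) (mA F η s d (n + 1) (2 * j + 1))
    (mB F η s d (n + 1) (2 * j)) (mB F η s d (n + 1) (2 * j + 1))
    kap_sq_le
  rw [sq_abs] at h
  have h2 : (0 : ℝ) < (1 / 2) ^ n := by positivity
  rw [pow_succ (1 / 2 : ℝ)]
  nlinarith [mul_le_mul_of_nonneg_left h h2.le]

theorem EA_zero (F : ℝ → ℝ) (η s : ℝ) (J n : ℕ) : EA F η s J 0 n = 4 * J * η ^ 2 := by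
  unfold EA
  simp only [mA]
  rw [sum_const, card_range, nsmul_eq_mul]
  push_cast
  rw [one_div, inv_pow]
  have h : (2 : ℝ) ^ n ≠ 0 := by positivity
  field_simp
  ring

theorem EB_zero (F : ℝ → ℝ) (η s : ℝ) (J n : ℕ) : EB F η s J 0 n = 4 * J * η ^ 2 := by
  unfold EB
  simp only [mB]
  rw [sum_const, card_range, nsmul_eq_mul]
  push_cast
  rw [one_div, inv_pow]
  have h : (2 : ℝ) ^ n ≠ 0 := by positivity
  field_simp
  ring

theorem sum_shift_le (g : ℕ → ℝ) (hg : 0 ≤ g 0) (M : ℕ) :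
    ∑ n ∈ range M, g (n + 1) ≤ ∑ n ∈ range (M + 1), g n := by
  rw [sum_range_succ']
  linarith

theorem EA_nonneg (F : ℝ → ℝ) (η s : ℝ) (J d n : ℕ) : 0 ≤ EA F η s J d n := by
  unfold EA; positivity

theorem EB_nonneg (F : ℝ → ℝ) (η s : ℝ) (J d n : ℕ) : 0 ≤ EB F η s J d n := by
  unfold EB; positivity

theorem sum_EA (F : ℝ → ℝ) (η : ℝ) (hη : 0 ≤ η) (hF : ∀ x y, |F y - F x| ≤ η * |y - x|)
    (s : ℝ) (J d M : ℕ) :
    ∑ n ∈ range M, EA F η s J d n ≤ 50 * (J * η ^ 2) + (9 / 10) ^ d * (4 * (M + d)) * (J * η ^ 2) := by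
  induction d generalizing M with
  | zero =>
    simp only [EA_zero, sum_const, card_range, nsmul_eq_mul, pow_zero]
    have : 0 ≤ (J : ℝ) * η ^ 2 := by positivity
    push_cast
    nlinarith
  | succ d ih =>
    have h1 : ∑ n ∈ range M, EA F η s J (d + 1) n ≤
        5 * ∑ n ∈ range M, EDl F s J n + 9 / 10 * ∑ n ∈ range M, EA F η s J d (n + 1) := by
      rw [mul_sum, mul_sum, ← sum_add_distrib]
      exact sum_le_sum fun n _ => EA_succ F η s hη J d n
    have h2 := bessel F η hF s J M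
    have h3 := sum_shift_le (fun n => EA F η s J d n) (EA_nonneg F η s J d 0) M
    have h4 := ih (M + 1)
    push_cast at h4 ⊢
    rw [pow_succ (9 / 10 : ℝ) d]
    generalize (J : ℝ) * η ^ 2 = X at *
    linarith

theorem sum_EB (F : ℝ → ℝ) (η : ℝ) (hη : 0 ≤ η) (hF : ∀ x y, |F y - F x| ≤ η * |y - x|)
    (s : ℝ) (J d M : ℕ) :
    ∑ n ∈ range M, EB F η s J d n ≤
      8100 * (J * η ^ 2) + (9 / 10) ^ d * ((M + d) * (4 + 72 * d)) * (J * η ^ 2) := by
  induction d generalizing M with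
  | zero =>
    simp only [EB_zero, sum_const, card_range, nsmul_eq_mul, pow_zero]
    have : 0 ≤ (J : ℝ) * η ^ 2 := by positivity
    push_cast
    nlinarith
  | succ d ih =>
    have h1 : ∑ n ∈ range M, EB F η s J (d + 1) n ≤
        10 * ∑ n ∈ range M, EDl F s J n + 16 * ∑ n ∈ range M, EA F η s J d (n + 1) +
          9 / 10 * ∑ n ∈ range M, EB F η s J d (n + 1) := by
      rw [mul_sum, mul_sum, mul_sum, ← sum_add_distrib, ← sum_add_distrib]
      exact sum_le_sum fun n _ => EB_succ F η s hη J d n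
    have h2 := bessel F η hF s J M
    have h3 := sum_shift_le (fun n => EA F η s J d n) (EA_nonneg F η s J d 0) M
    have h4 := sum_EA F η hη hF s J d (M + 1)
    have h5 := sum_shift_le (fun n => EB F η s J d n) (EB_nonneg F η s J d 0) M
    have h6 := ih (M + 1)
    push_cast at h4 h6 ⊢
    have hq : (0 : ℝ) ≤ (9 / 10) ^ d := by positivity
    have hJ : 0 ≤ (J : ℝ) * η ^ 2 := by positivity
    have hM : (0 : ℝ) ≤ (M : ℝ) + 1 + d := by positivity
    have h7 : 0 ≤ (9 / 10 : ℝ) ^ d * ((M : ℝ) + 1 + d) * (J * η ^ 2) := by positivity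
    rw [pow_succ (9 / 10 : ℝ) d]
    generalize (J : ℝ) * η ^ 2 = X at *
    nlinarith

/-- **(L1)**: Hölder control in all cells, with square summable constants -/
theorem L1 (F : ℝ → ℝ) (η : ℝ) (hη : 0 ≤ η) (hF : ∀ x y, |F y - F x| ≤ η * |y - x|)
    (s : ℝ) (J M : ℕ) : ∃ B : ℕ → ℕ → ℝ, (∀ n j, 0 ≤ B n j) ∧
      (∀ n j x y, cl s n j ≤ x → x ≤ y → y ≤ cr s n j →
        |F y - F x - mn F s n j * (y - x)| ≤ B n j * wg n (y - x)) ∧
      ∑ n ∈ range M, ∑ j ∈ range (J * 2 ^ n), (1 / 2) ^ n * (B n j) ^ 2 ≤ 8101 * (J * η ^ 2) := by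
  have hlim : Filter.Tendsto (fun d : ℕ => (9 / 10 : ℝ) ^ d * ((M + d) * (4 + 72 * d)))
      Filter.atTop (nhds 0) := by
    have h0 : Filter.Tendsto (fun d : ℕ => (d : ℝ) ^ 0 * (9 / 10 : ℝ) ^ d) Filter.atTop (nhds 0) :=
      tendsto_pow_const_mul_const_pow_of_abs_lt_one 0 (by rw [abs_of_pos] <;> norm_num)
    have h1 : Filter.Tendsto (fun d : ℕ => (d : ℝ) ^ 1 * (9 / 10 : ℝ) ^ d) Filter.atTop (nhds 0) :=
      tendsto_pow_const_mul_const_pow_of_abs_lt_one 1 (by rw [abs_of_pos] <;> norm_num)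
    have h2 : Filter.Tendsto (fun d : ℕ => (d : ℝ) ^ 2 * (9 / 10 : ℝ) ^ d) Filter.atTop (nhds 0) :=
      tendsto_pow_const_mul_const_pow_of_abs_lt_one 2 (by rw [abs_of_pos] <;> norm_num)
    have h := ((h0.const_mul (4 * (M : ℝ))).add (h1.const_mul (72 * (M : ℝ) + 4))).add
      (h2.const_mul 72)
    simp only [mul_zero, add_zero] at h
    refine h.congr fun d => ?_
    ring
  obtain ⟨d, hd⟩ := (hlim.eventually (gt_mem_nhds (show (0 : ℝ) < 1 by norm_num))).exists
  refine ⟨fun n j => mB F η s d n j, fun n j => mB_nonneg F η s hη d n j,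
    fun n j x y h1 h2 h3 => mB_bound F η hη hF s d n j x y h1 h2 h3, ?_⟩
  have h := sum_EB F η hη hF s J d M
  have hJ : 0 ≤ (J : ℝ) * η ^ 2 := by positivity
  unfold EB at h
  nlinarith [mul_le_mul_of_nonneg_right hd.le hJ]

end Pool.Agent.H14.GSC
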