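import Mathlib

/-!
# Majorants of finite depth for arbitrary arrays (project GSC, section 3, (L1))

`D n j` is an array (Haar coefficients), `kap = √(√(1/8))`; `mA`, `mB` are the majorants of depth `d`
with the base value `β`.
-/

set_option autoImplicit false
open Finset

namespace Pool.Agent.H14.GSC.M

/-- `κ = 2^(-3/4)` -/
noncomputable def kp : ℝ := √(√(1 / 8))

theorem kp_nonneg : 0 ≤ kp := Real.sqrt_nonneg _

theorem kp_sq_le : kp ^ 2 ≤ 36 / 100 := by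
  unfold kp
  rw [Real.sq_sqrt (Real.sqrt_nonneg _)]
  rw [show (36 / 100 : ℝ) = √((36 / 100) ^ 2) from (Real.sqrt_sq (by norm_num)).symm]
  exact Real.sqrt_le_sqrt (by norm_num)

/-- majorant for the intervals with an end at an end of the cell -/
noncomputable def mA (D : ℕ → ℕ → ℝ) (β : ℝ) : ℕ → ℕ → ℕ → ℝ
  | 0, _, _ => β
  | d + 1, n, j => |D n j| + kp * max (mA D β d (n + 1) (2 * j)) (mA D β d (n + 1) (2 * j + 1))

/-- majorant for all intervals in the cell -/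
noncomputable def mB (D : ℕ → ℕ → ℝ) (β : ℝ) : ℕ → ℕ → ℕ → ℝ
  | 0, _, _ => β
  | d + 1, n, j => (|D n j| + kp * (mA D β d (n + 1) (2 * j) + mA D β d (n + 1) (2 * j + 1))) +
      kp * max (mB D β d (n + 1) (2 * j)) (mB D β d (n + 1) (2 * j + 1))

theorem mA_nonneg (D : ℕ → ℕ → ℝ) (β : ℝ) (hβ : 0 ≤ β) (d n j : ℕ) : 0 ≤ mA D β d n j := by
  induction d generalizing n j with
  | zero => simp only [mA]; exact hβ
  | succ d ih =>
    simp only [mA]
    have h1 := ih (n + 1) (2 * j)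
    have h2 := kp_nonneg
    have h3 : 0 ≤ max (mA D β d (n + 1) (2 * j)) (mA D β d (n + 1) (2 * j + 1)) :=
      le_trans h1 (le_max_left _ _)
    positivity

theorem mB_nonneg (D : ℕ → ℕ → ℝ) (β : ℝ) (hβ : 0 ≤ β) (d n j : ℕ) : 0 ≤ mB D β d n j := by
  induction d generalizing n j with
  | zero => simp only [mB]; exact hβ
  | succ d ih =>
    simp only [mB]
    have h1 := ih (n + 1) (2 * j)
    have h2 := kp_nonneg
    have h3 : 0 ≤ max (mB D β d (n + 1) (2 * j)) (mB D β d (n + 1) (2 * j + 1)) :=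
      le_trans h1 (le_max_left _ _)
    have h4 := mA_nonneg D β hβ d (n + 1) (2 * j)
    have h5 := mA_nonneg D β hβ d (n + 1) (2 * j + 1)
    positivity

theorem sum_split (f : ℕ → ℝ) (m : ℕ) :
    ∑ j ∈ range (2 * m), f j = ∑ j ∈ range m, (f (2 * j) + f (2 * j + 1)) := by
  induction m with
  | zero => simp
  | succ m ih =>
    rw [show 2 * (m + 1) = 2 * m + 1 + 1 by ring, sum_range_succ, sum_range_succ, ih,
      sum_range_succ]
    ring

/-- the energy of the level `n` of an array -/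
noncomputable def En (J : ℕ) (X : ℕ → ℕ → ℝ) (n : ℕ) : ℝ :=
  ∑ j ∈ range (J * 2 ^ n), (1 / 2) ^ n * (X n j) ^ 2

theorem En_nonneg (J : ℕ) (X : ℕ → ℕ → ℝ) (n : ℕ) : 0 ≤ En J X n := by
  unfold En; positivity

theorem young1 (x k u v : ℝ) (hk2 : k ^ 2 ≤ 36 / 100) :
    (x + k * max u v) ^ 2 ≤ 5 * x ^ 2 + 9 / 20 * (u ^ 2 + v ^ 2) := by
  have hm : (max u v) ^ 2 ≤ u ^ 2 + v ^ 2 := by
    rcases max_choice u v with h | h <;> rw [h] <;> nlinarith [sq_nonneg u, sq_nonneg v]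
  have h1 : (x + k * max u v) ^ 2 ≤ 5 * x ^ 2 + 5 / 4 * (k * max u v) ^ 2 := by
    nlinarith [sq_nonneg (4 * x - k * max u v)]
  have h2 : (k * max u v) ^ 2 ≤ 36 / 100 * (u ^ 2 + v ^ 2) := by
    rw [mul_pow]
    exact mul_le_mul hk2 hm (sq_nonneg _) (by norm_num)
  nlinarith

theorem young2 (x k a b u v : ℝ) (hk2 : k ^ 2 ≤ 36 / 100) :
    ((x + k * (a + b)) + k * max u v) ^ 2 ≤ 10 * x ^ 2 + 8 * (a ^ 2 + b ^ 2) +
      9 / 20 * (u ^ 2 + v ^ 2) := by
  have hm : (max u v) ^ 2 ≤ u ^ 2 + v ^ 2 := by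
    rcases max_choice u v with h | h <;> rw [h] <;> nlinarith [sq_nonneg u, sq_nonneg v]
  have h1 : ((x + k * (a + b)) + k * max u v) ^ 2 ≤
      5 * (x + k * (a + b)) ^ 2 + 5 / 4 * (k * max u v) ^ 2 := by
    nlinarith [sq_nonneg (4 * (x + k * (a + b)) - k * max u v)]
  have h2 : (k * max u v) ^ 2 ≤ 36 / 100 * (u ^ 2 + v ^ 2) := by
    rw [mul_pow]
    exact mul_le_mul hk2 hm (sq_nonneg _) (by norm_num)
  have h3 : (x + k * (a + b)) ^ 2 ≤ 2 * x ^ 2 + 2 * (k * (a + b)) ^ 2 := by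
    nlinarith [sq_nonneg (x - k * (a + b))]
  have h4 : (k * (a + b)) ^ 2 ≤ 36 / 100 * (2 * (a ^ 2 + b ^ 2)) := by
    rw [mul_pow]
    exact mul_le_mul hk2 (by nlinarith [sq_nonneg (a - b)]) (sq_nonneg _) (by norm_num)
  nlinarith [sq_nonneg a, sq_nonneg b]

theorem EA_succ (D : ℕ → ℕ → ℝ) (β : ℝ) (J d n : ℕ) :
    En J (mA D β (d + 1)) n ≤ 5 * En J D n + 9 / 10 * En J (mA D β d) (n + 1) := by
  unfold En
  rw [show J * 2 ^ (n + 1) = 2 * (J * 2 ^ n) by rw [pow_succ]; ring, sum_split, mul_sum,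
    mul_sum, ← sum_add_distrib]
  refine sum_le_sum fun j _ => ?_
  simp only [mA]
  have h := young1 |D n j| kp (mA D β d (n + 1) (2 * j)) (mA D β d (n + 1) (2 * j + 1)) kp_sq_le
  rw [sq_abs] at h
  have h2 : (0 : ℝ) < (1 / 2) ^ n := by positivity
  rw [pow_succ (1 / 2 : ℝ)]
  nlinarith [mul_le_mul_of_nonneg_left h h2.le]

theorem EB_succ (D : ℕ → ℕ → ℝ) (β : ℝ) (J d n : ℕ) :
    En J (mB D β (d + 1)) n ≤ 10 * En J D n + 16 * En J (mA D β d) (n + 1) +
      9 / 10 * En J (mB D β d) (n + 1) := by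
  unfold En
  rw [show J * 2 ^ (n + 1) = 2 * (J * 2 ^ n) by rw [pow_succ]; ring, sum_split, sum_split, mul_sum,
    mul_sum, mul_sum, ← sum_add_distrib, ← sum_add_distrib]
  refine sum_le_sum fun j _ => ?_
  simp only [mB]
  have h := young2 |D n j| kp (mA D β d (n + 1) (2 * j)) (mA D β d (n + 1) (2 * j + 1))
    (mB D β d (n + 1) (2 * j)) (mB D β d (n + 1) (2 * j + 1)) kp_sq_le
  rw [sq_abs] at h
  have h2 : (0 : ℝ) < (1 / 2) ^ n := by positivity
  rw [pow_succ (1 / 2 : ℝ)]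
  nlinarith [mul_le_mul_of_nonneg_left h h2.le]

theorem En_const (J : ℕ) (β : ℝ) (n : ℕ) : En J (fun _ _ => β) n = J * β ^ 2 := by
  unfold En
  rw [sum_const, card_range, nsmul_eq_mul]
  push_cast
  rw [one_div, inv_pow]
  have h : (2 : ℝ) ^ n ≠ 0 := by positivity
  field_simp

theorem EA_zero (D : ℕ → ℕ → ℝ) (β : ℝ) (J n : ℕ) : En J (mA D β 0) n = J * β ^ 2 := by
  rw [← En_const J β n]
  rfl

theorem EB_zero (D : ℕ → ℕ → ℝ) (β : ℝ) (J n : ℕ) : En J (mB D β 0) n = J * β ^ 2 := by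
  rw [← En_const J β n]
  rfl

theorem sum_shift_le (g : ℕ → ℝ) (hg : 0 ≤ g 0) (M : ℕ) :
    ∑ n ∈ range M, g (n + 1) ≤ ∑ n ∈ range (M + 1), g n := by
  rw [sum_range_succ']
  linarith

theorem sum_EA (D : ℕ → ℕ → ℝ) (β : ℝ) (J : ℕ) (B : ℝ)
    (hB : ∀ M, ∑ n ∈ range M, En J D n ≤ B) (d M : ℕ) :
    ∑ n ∈ range M, En J (mA D β d) n ≤ 50 * B + (9 / 10) ^ d * (M + d) * (J * β ^ 2) := by
  have hB0 : 0 ≤ B := by simpa using hB 0
  induction d generalizing M with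
  | zero =>
    simp only [EA_zero, sum_const, card_range, nsmul_eq_mul, pow_zero]
    push_cast
    linarith
  | succ d ih =>
    have h1 : ∑ n ∈ range M, En J (mA D β (d + 1)) n ≤
        5 * ∑ n ∈ range M, En J D n + 9 / 10 * ∑ n ∈ range M, En J (mA D β d) (n + 1) := by
      rw [mul_sum, mul_sum, ← sum_add_distrib]
      exact sum_le_sum fun n _ => EA_succ D β J d n
    have h2 := hB M
    have h3 := sum_shift_le (fun n => En J (mA D β d) n) (En_nonneg _ _ 0) M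
    have h4 := ih (M + 1)
    push_cast at h4 ⊢
    rw [pow_succ (9 / 10 : ℝ) d]
    generalize (J : ℝ) * β ^ 2 = X at *
    linarith

theorem sum_EB (D : ℕ → ℕ → ℝ) (β : ℝ) (J : ℕ) (B : ℝ)
    (hB : ∀ M, ∑ n ∈ range M, En J D n ≤ B) (d M : ℕ) :
    ∑ n ∈ range M, En J (mB D β d) n ≤
      8100 * B + (9 / 10) ^ d * ((M + d) * (1 + 18 * d)) * (J * β ^ 2) := by
  have hB0 : 0 ≤ B := by simpa using hB 0
  induction d generalizing M with
  | zero =>
    simp only [EB_zero, sum_const, card_range, nsmul_eq_mul, pow_zero]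
    push_cast
    nlinarith
  | succ d ih =>
    have h1 : ∑ n ∈ range M, En J (mB D β (d + 1)) n ≤
        10 * ∑ n ∈ range M, En J D n + 16 * ∑ n ∈ range M, En J (mA D β d) (n + 1) +
          9 / 10 * ∑ n ∈ range M, En J (mB D β d) (n + 1) := by
      rw [mul_sum, mul_sum, mul_sum, ← sum_add_distrib, ← sum_add_distrib]
      exact sum_le_sum fun n _ => EB_succ D β J d n
    have h2 := hB M
    have h3 := sum_shift_le (fun n => En J (mA D β d) n) (En_nonneg _ _ 0) M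
    have h4 := sum_EA D β J B hB d (M + 1)
    have h5 := sum_shift_le (fun n => En J (mB D β d) n) (En_nonneg _ _ 0) M
    have h6 := ih (M + 1)
    push_cast at h4 h6 ⊢
    have hJ : 0 ≤ (J : ℝ) * β ^ 2 := by positivity
    have h7 : 0 ≤ (9 / 10 : ℝ) ^ d * ((M : ℝ) + 1 + d) * (J * β ^ 2) := by positivity
    rw [pow_succ (9 / 10 : ℝ) d]
    generalize (J : ℝ) * β ^ 2 = X at *
    nlinarith

/-- the energy of the majorants of sufficiently large depth -/
theorem exists_depth (D : ℕ → ℕ → ℝ) (β : ℝ) (J : ℕ) (B ε : ℝ) (hε : 0 < ε)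
    (hB : ∀ M, ∑ n ∈ range M, En J D n ≤ B) (M : ℕ) :
    ∃ d, ∑ n ∈ range M, En J (mB D β d) n ≤ 8100 * B + ε := by
  have hlim : Filter.Tendsto (fun d : ℕ => (9 / 10 : ℝ) ^ d * ((M + d) * (1 + 18 * d)) *
      (J * β ^ 2)) Filter.atTop (nhds 0) := by
    have h0 : Filter.Tendsto (fun d : ℕ => (d : ℝ) ^ 0 * (9 / 10 : ℝ) ^ d) Filter.atTop (nhds 0) :=
      tendsto_pow_const_mul_const_pow_of_abs_lt_one 0 (by rw [abs_of_pos] <;> norm_num)
    have h1 : Filter.Tendsto (fun d : ℕ => (d : ℝ) ^ 1 * (9 / 10 : ℝ) ^ d) Filter.atTop (nhds 0) :=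
      tendsto_pow_const_mul_const_pow_of_abs_lt_one 1 (by rw [abs_of_pos] <;> norm_num)
    have h2 : Filter.Tendsto (fun d : ℕ => (d : ℝ) ^ 2 * (9 / 10 : ℝ) ^ d) Filter.atTop (nhds 0) :=
      tendsto_pow_const_mul_const_pow_of_abs_lt_one 2 (by rw [abs_of_pos] <;> norm_num)
    have h := (((h0.const_mul (M : ℝ)).add (h1.const_mul (18 * (M : ℝ) + 1))).add
      (h2.const_mul 18)).mul_const ((J : ℝ) * β ^ 2)
    simp only [mul_zero, add_zero, zero_mul] at h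
    refine h.congr fun d => ?_
    ring
  obtain ⟨d, hd⟩ := (hlim.eventually (gt_mem_nhds hε)).exists
  refine ⟨d, ?_⟩
  have h := sum_EB D β J B hB d M
  linarith

end Pool.Agent.H14.GSC.M
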