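import Mathlib
import Pool.Agent.H66.GSC.Hr
import Pool.Agent.H14.GSC.Maj

/-!
# Hölder control in dyadic cells (project GSC, section 3, (L1)), with the cells `ce`, the gauge `hr`

`F` is any function, `mF F r h l k` its mean slope in the cell `k` of level `l`, `DF` the Haar
coefficient.  If `|F y - F x - mF (y - x)| ≤ β (y - x)` in all cells (of the forest of `J` trees), then
`|F y - F x - mF (y - x)| ≤ mB D β d l k * wg` for every depth `d`.
-/

set_option autoImplicit false
open Finset

namespace Pool.Agent.H14.GSC.M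

open Pool.Agent.H66.GSC (ce hr hr_nonneg hr_mono hr_mul le_hr_self fa)

/-- mean slope of `F` in the cell -/
noncomputable def mF (F : ℝ → ℝ) (r h : ℝ) (l k : ℕ) : ℝ :=
  (F (ce r h l k + h / 2 ^ l) - F (ce r h l k)) / (h / 2 ^ l)

/-- Haar coefficient -/
noncomputable def DF (F : ℝ → ℝ) (r h : ℝ) (l k : ℕ) : ℝ :=
  (mF F r h (l + 1) (2 * k + 1) - mF F r h (l + 1) (2 * k)) / 2

/-- the gauge -/
noncomputable def wg (h : ℝ) (l : ℕ) (z : ℝ) : ℝ := h / 2 ^ l * hr (z / (h / 2 ^ l))

theorem size_succ (h : ℝ) (l : ℕ) : h / 2 ^ (l + 1) = h / 2 ^ l / 2 := by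
  rw [pow_succ, div_div]

theorem ce_left (r h : ℝ) (l k : ℕ) : ce r h (l + 1) (2 * k) = ce r h l k := by
  unfold ce
  rw [size_succ]
  push_cast
  ring

theorem ce_right (r h : ℝ) (l k : ℕ) :
    ce r h (l + 1) (2 * k + 1) = ce r h l k + h / 2 ^ (l + 1) := by
  unfold ce
  rw [size_succ]
  push_cast
  ring

theorem ce_mid (r h : ℝ) (l k : ℕ) :
    ce r h (l + 1) (2 * k) + h / 2 ^ (l + 1) = ce r h (l + 1) (2 * k + 1) := by
  rw [ce_left, ce_right]

theorem ce_end (r h : ℝ) (l k : ℕ) :
    ce r h (l + 1) (2 * k + 1) + h / 2 ^ (l + 1) = ce r h l k + h / 2 ^ l := by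
  rw [ce_right, size_succ]
  ring

theorem mF_spec (F : ℝ → ℝ) (r h : ℝ) (hh : 0 < h) (l k : ℕ) :
    F (ce r h l k + h / 2 ^ l) - F (ce r h l k) = mF F r h l k * (h / 2 ^ l) := by
  unfold mF
  have h1 : h / 2 ^ l ≠ 0 := by positivity
  rw [div_mul_cancel₀ _ h1]

theorem mF_avg (F : ℝ → ℝ) (r h : ℝ) (hh : 0 < h) (l k : ℕ) :
    mF F r h l k = (mF F r h (l + 1) (2 * k) + mF F r h (l + 1) (2 * k + 1)) / 2 := by
  have h1 := mF_spec F r h hh l k
  have h2 := mF_spec F r h hh (l + 1) (2 * k)
  have h3 := mF_spec F r h hh (l + 1) (2 * k + 1)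
  rw [ce_mid, ce_left] at h2
  rw [ce_end] at h3
  rw [size_succ] at h2 h3
  have h4 : (0 : ℝ) < h / 2 ^ l := by positivity
  have h5 : (mF F r h l k - (mF F r h (l + 1) (2 * k) + mF F r h (l + 1) (2 * k + 1)) / 2) *
      (h / 2 ^ l) = 0 := by linarith
  rcases mul_eq_zero.1 h5 with h6 | h6
  · linarith
  · exact absurd h6 h4.ne'

theorem mF_left (F : ℝ → ℝ) (r h : ℝ) (hh : 0 < h) (l k : ℕ) :
    mF F r h (l + 1) (2 * k) = mF F r h l k - DF F r h l k := by
  rw [mF_avg F r h hh l k]
  unfold DF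
  ring

theorem mF_right (F : ℝ → ℝ) (r h : ℝ) (hh : 0 < h) (l k : ℕ) :
    mF F r h (l + 1) (2 * k + 1) = mF F r h l k + DF F r h l k := by
  rw [mF_avg F r h hh l k]
  unfold DF
  ring

theorem wg_nonneg (h : ℝ) (hh : 0 < h) (l : ℕ) (z : ℝ) : 0 ≤ wg h l z := by
  unfold wg
  exact mul_nonneg (by positivity) (hr_nonneg _)

theorem wg_mono (h : ℝ) (hh : 0 < h) (l : ℕ) {z z' : ℝ} (hz : z ≤ z') :
    wg h l z ≤ wg h l z' := by
  unfold wg
  exact mul_le_mul_of_nonneg_left (hr_mono (by gcongr)) (by positivity)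

theorem kp_eq : kp = 1 / 2 * hr 2 := by
  have h1 : hr (1 / 16) = 1 / 2 := by
    unfold hr
    rw [show (1 / 16 : ℝ) = (1 / 4) ^ 2 by norm_num, Real.sqrt_sq (by norm_num),
      show (1 / 4 : ℝ) = (1 / 2) ^ 2 by norm_num, Real.sqrt_sq (by norm_num)]
  rw [← h1, ← hr_mul (by norm_num)]
  unfold kp hr
  norm_num

theorem wg_succ (h : ℝ) (l : ℕ) (z : ℝ) : wg h (l + 1) z = kp * wg h l z := by
  unfold wg
  rw [size_succ, kp_eq, show z / (h / 2 ^ l / 2) = 2 * (z / (h / 2 ^ l)) by
    rw [div_div_eq_mul_div, mul_comm z 2, mul_div_assoc], hr_mul (by norm_num)]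
  ring

theorem le_wg (h : ℝ) (hh : 0 < h) (l : ℕ) (z : ℝ) (hz : 0 ≤ z) (hz' : z ≤ h / 2 ^ l) :
    z ≤ wg h l z := by
  unfold wg
  have h1 : (0 : ℝ) < h / 2 ^ l := by positivity
  have h2 : z / (h / 2 ^ l) ≤ 1 := (div_le_one h1).2 hz'
  calc z = h / 2 ^ l * (z / (h / 2 ^ l)) := by field_simp
    _ ≤ h / 2 ^ l * hr (z / (h / 2 ^ l)) := by
        exact mul_le_mul_of_nonneg_left (le_hr_self (by positivity) h2) h1.le

/-- the base hypothesis -/
def Base (F : ℝ → ℝ) (r h : ℝ) (J : ℕ) (β : ℝ) : Prop :=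
  ∀ l k x y, k < J * 2 ^ l → ce r h l k ≤ x → x ≤ y → y ≤ ce r h l k + h / 2 ^ l →
    |F y - F x - mF F r h l k * (y - x)| ≤ β * (y - x)

theorem mA_bound (F : ℝ → ℝ) (r h : ℝ) (hh : 0 < h) (J : ℕ) (β : ℝ) (hβ : 0 ≤ β)
    (hF : Base F r h J β) (d n j : ℕ) (hj : j < J * 2 ^ n) (y : ℝ) (hy : ce r h n j ≤ y)
    (hy' : y ≤ ce r h n j + h / 2 ^ n) :
    |F y - F (ce r h n j) - mF F r h n j * (y - ce r h n j)| ≤
      mA (DF F r h) β d n j * wg h n (y - ce r h n j) ∧
    |F (ce r h n j + h / 2 ^ n) - F y - mF F r h n j * (ce r h n j + h / 2 ^ n - y)| ≤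
      mA (DF F r h) β d n j * wg h n (ce r h n j + h / 2 ^ n - y) := by
  induction d generalizing n j y with
  | zero =>
    simp only [mA]
    have h1 := hF n j (ce r h n j) y hj le_rfl hy hy'
    have h2 := hF n j y (ce r h n j + h / 2 ^ n) hj hy hy' le_rfl
    exact ⟨h1.trans (mul_le_mul_of_nonneg_left (le_wg h hh n _ (by linarith) (by linarith)) hβ),
      h2.trans (mul_le_mul_of_nonneg_left (le_wg h hh n _ (by linarith) (by linarith)) hβ)⟩
  | succ d ih =>
    have hj1 : 2 * j < J * 2 ^ (n + 1) := by rw [pow_succ]; nlinarith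
    have hj2 : 2 * j + 1 < J * 2 ^ (n + 1) := by
      have : j + 1 ≤ J * 2 ^ n := hj
      rw [pow_succ]; nlinarith
    have el := ce_left r h n j
    have em := ce_mid r h n j
    have ee := ce_end r h n j
    have esz := size_succ h n
    have hsz : (0 : ℝ) < h / 2 ^ n := by positivity
    set l := ce r h n j with hl
    set rr := l + h / 2 ^ n with hrr
    set c := ce r h (n + 1) (2 * j + 1) with hc
    have hcl : c - l = h / 2 ^ n / 2 := by rw [← em, el, esz]; ring
    have hrc : rr - c = h / 2 ^ n / 2 := by rw [hrr]; linarith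
    have hrl : rr - l = h / 2 ^ n := by rw [hrr]; ring
    have htot : F rr - F l = mF F r h n j * (rr - l) := by
      rw [hrl]; exact mF_spec F r h hh n j
    have hk := kp_nonneg
    have hL : ∀ z, l ≤ z → z ≤ c →
        |F z - F l - mF F r h n j * (z - l)| ≤ mA (DF F r h) β (d + 1) n j * wg h n (z - l) := by
      intro z hz1 hz2
      have h5 := ih (n + 1) (2 * j) hj1 z (by rw [el]; exact hz1) (by rw [em]; exact hz2)
      rw [em, el] at h5
      rw [wg_succ] at h5
      have hz3 : z - l ≤ wg h n (z - l) := le_wg h hh n _ (by linarith) (by linarith)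
      have hz4 := wg_nonneg h hh n (z - l)
      have e : F z - F l - mF F r h n j * (z - l) =
            (F z - F l - mF F r h (n + 1) (2 * j) * (z - l)) - DF F r h n j * (z - l) := by
          rw [mF_left F r _ hh]; ring
      have h1 : |DF F r h n j * (z - l)| ≤ |DF F r h n j| * wg h n (z - l) := by
          rw [abs_mul, abs_of_nonneg (by linarith : (0 : ℝ) ≤ z - l)]
          exact mul_le_mul_of_nonneg_left hz3 (abs_nonneg _)
      have h3 := le_max_left (mA (DF F r h) β d (n + 1) (2 * j)) (mA (DF F r h) β d (n + 1) (2 * j + 1))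
      have h4 := mul_nonneg hk hz4
      have h2 := mul_le_mul_of_nonneg_right h3 h4
      rw [e]
      refine (abs_sub _ _).trans ?_
      simp only [mA]
      nlinarith [h5.1, h1, h2]
    have hR : ∀ z, c ≤ z → z ≤ rr →
        |F rr - F z - mF F r h n j * (rr - z)| ≤ mA (DF F r h) β (d + 1) n j * wg h n (rr - z) := by
      intro z hz1 hz2
      have h5 := ih (n + 1) (2 * j + 1) hj2 z hz1 (by rw [ee]; exact hz2)
      rw [ee] at h5
      rw [wg_succ, wg_succ] at h5
      have hz3 : rr - z ≤ wg h n (rr - z) := le_wg h hh n _ (by linarith) (by linarith)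
      have hz4 := wg_nonneg h hh n (rr - z)
      have e : F rr - F z - mF F r h n j * (rr - z) =
          (F rr - F z - mF F r h (n + 1) (2 * j + 1) * (rr - z)) + DF F r h n j * (rr - z) := by
        rw [mF_right F r _ hh]; ring
      have h1 : |DF F r h n j * (rr - z)| ≤ |DF F r h n j| * wg h n (rr - z) := by
        rw [abs_mul, abs_of_nonneg (by linarith : (0 : ℝ) ≤ rr - z)]
        exact mul_le_mul_of_nonneg_left hz3 (abs_nonneg _)
      have h3 := le_max_right (mA (DF F r h) β d (n + 1) (2 * j)) (mA (DF F r h) β d (n + 1) (2 * j + 1))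
      have h4 := mul_nonneg hk hz4
      have h2 := mul_le_mul_of_nonneg_right h3 h4
      rw [e]
      refine (abs_add_le _ _).trans ?_
      simp only [mA]
      nlinarith [h5.2, h1, h2]
    have hA : 0 ≤ mA (DF F r h) β (d + 1) n j := mA_nonneg _ β hβ (d + 1) n j
    rcases le_total y c with hyc | hyc
    · refine ⟨hL y hy hyc, ?_⟩
      have e : F rr - F y - mF F r h n j * (rr - y) = -(F y - F l - mF F r h n j * (y - l)) := by
        linarith
      rw [e, abs_neg]
      refine le_trans (hL y hy hyc) ?_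
      exact mul_le_mul_of_nonneg_left (wg_mono h hh n (by linarith)) hA
    · refine ⟨?_, hR y hyc hy'⟩
      have e : F y - F l - mF F r h n j * (y - l) = -(F rr - F y - mF F r h n j * (rr - y)) := by
        linarith
      rw [e, abs_neg]
      refine le_trans (hR y hyc hy') ?_
      exact mul_le_mul_of_nonneg_left (wg_mono h hh n (by linarith)) hA

theorem m2_bound (F : ℝ → ℝ) (r h : ℝ) (hh : 0 < h) (J : ℕ) (β : ℝ) (hβ : 0 ≤ β)
    (hF : Base F r h J β) (d n j : ℕ) (hj : j < J * 2 ^ n) (x y : ℝ) (hx : ce r h n j ≤ x)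
    (hxy : x ≤ y) (hy : y ≤ ce r h n j + h / 2 ^ n) :
    |F y - F x - mF F r h n j * (y - x)| ≤ 2 * mA (DF F r h) β d n j * wg h n (y - x) := by
  induction d generalizing n j x y with
  | zero =>
    simp only [mA]
    have h1 := (hF n j x y hj hx hxy hy).trans
      (mul_le_mul_of_nonneg_left (le_wg h hh n _ (by linarith) (by linarith)) hβ)
    have h2 := mul_nonneg hβ (wg_nonneg h hh n (y - x))
    linarith
  | succ d ih =>
    have hj1 : 2 * j < J * 2 ^ (n + 1) := by rw [pow_succ]; nlinarith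
    have hj2 : 2 * j + 1 < J * 2 ^ (n + 1) := by
      have : j + 1 ≤ J * 2 ^ n := hj
      rw [pow_succ]; nlinarith
    have el := ce_left r h n j
    have em := ce_mid r h n j
    have ee := ce_end r h n j
    have esz := size_succ h n
    have hsz : (0 : ℝ) < h / 2 ^ n := by positivity
    have hk := kp_nonneg
    have hw : 0 ≤ wg h n (y - x) := wg_nonneg h hh n _
    have hw1 : y - x ≤ wg h n (y - x) := le_wg h hh n _ (by linarith) (by linarith)
    have hA1 := mA_nonneg (DF F r h) β hβ d (n + 1) (2 * j)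
    have hA2 := mA_nonneg (DF F r h) β hβ d (n + 1) (2 * j + 1)
    have hm1 := le_max_left (mA (DF F r h) β d (n + 1) (2 * j)) (mA (DF F r h) β d (n + 1) (2 * j + 1))
    have hm2 := le_max_right (mA (DF F r h) β d (n + 1) (2 * j)) (mA (DF F r h) β d (n + 1) (2 * j + 1))
    have hkw : 0 ≤ kp * wg h n (y - x) := mul_nonneg hk hw
    have hDw : 0 ≤ |DF F r h n j| * wg h n (y - x) := mul_nonneg (abs_nonneg _) hw
    have h2 := mul_le_mul_of_nonneg_right hm1 hkw
    have h3 := mul_le_mul_of_nonneg_right hm2 hkw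
    set l := ce r h n j with hl
    set rr := l + h / 2 ^ n with hrr
    set c := ce r h (n + 1) (2 * j + 1) with hc
    have hcl : c - l = h / 2 ^ n / 2 := by rw [← em, el, esz]; ring
    simp only [mA]
    rcases le_total y c with hyc | hyc
    · have h4 := ih (n + 1) (2 * j) hj1 x y (by rw [el]; exact hx) hxy (by rw [em]; exact hyc)
      rw [wg_succ] at h4
      have e : F y - F x - mF F r h n j * (y - x) =
          (F y - F x - mF F r h (n + 1) (2 * j) * (y - x)) - DF F r h n j * (y - x) := by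
        rw [mF_left F r h hh]; ring
      have h1 : |DF F r h n j * (y - x)| ≤ |DF F r h n j| * wg h n (y - x) := by
        rw [abs_mul, abs_of_nonneg (by linarith : (0 : ℝ) ≤ y - x)]
        exact mul_le_mul_of_nonneg_left hw1 (abs_nonneg _)
      rw [e]
      refine (abs_sub _ _).trans ?_
      nlinarith [h4, h1, h2, hDw]
    · rcases le_total c x with hcx | hcx
      · have h4 := ih (n + 1) (2 * j + 1) hj2 x y hcx hxy (by rw [ee]; exact hy)
        rw [wg_succ] at h4
        have e : F y - F x - mF F r h n j * (y - x) =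
            (F y - F x - mF F r h (n + 1) (2 * j + 1) * (y - x)) + DF F r h n j * (y - x) := by
          rw [mF_right F r h hh]; ring
        have h1 : |DF F r h n j * (y - x)| ≤ |DF F r h n j| * wg h n (y - x) := by
          rw [abs_mul, abs_of_nonneg (by linarith : (0 : ℝ) ≤ y - x)]
          exact mul_le_mul_of_nonneg_left hw1 (abs_nonneg _)
        rw [e]
        refine (abs_add_le _ _).trans ?_
        nlinarith [h4, h1, h3, hDw]
      · have h4 := (mA_bound F r h hh J β hβ hF d (n + 1) (2 * j) hj1 x (by rw [el]; exact hx)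
          (by rw [em]; exact hcx)).2
        have h5 := (mA_bound F r h hh J β hβ hF d (n + 1) (2 * j + 1) hj2 y hyc
          (by rw [ee]; exact hy)).1
        rw [em] at h4
        rw [wg_succ] at h4 h5
        rw [← hc] at h5
        have hw2 : wg h n (c - x) ≤ wg h n (y - x) := wg_mono h hh n (by linarith)
        have hw3 : wg h n (y - c) ≤ wg h n (y - x) := wg_mono h hh n (by linarith)
        have e : F y - F x - mF F r h n j * (y - x) =
            ((F c - F x - mF F r h (n + 1) (2 * j) * (c - x)) +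
            (F y - F c - mF F r h (n + 1) (2 * j + 1) * (y - c))) +
            DF F r h n j * ((y - c) - (c - x)) := by
          rw [mF_right F r h hh, mF_left F r h hh]; ring
        have h1 : |DF F r h n j * ((y - c) - (c - x))| ≤ |DF F r h n j| * wg h n (y - x) := by
          rw [abs_mul]
          apply mul_le_mul_of_nonneg_left _ (abs_nonneg _)
          rw [abs_le]
          constructor <;> linarith
        have h6 : mA (DF F r h) β d (n + 1) (2 * j) * (kp * wg h n (c - x)) ≤
            mA (DF F r h) β d (n + 1) (2 * j) * (kp * wg h n (y - x)) := by gcongr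
        have h7 : mA (DF F r h) β d (n + 1) (2 * j + 1) * (kp * wg h n (y - c)) ≤
            mA (DF F r h) β d (n + 1) (2 * j + 1) * (kp * wg h n (y - x)) := by gcongr
        rw [e]
        refine (abs_add_le _ _).trans ?_
        have h9 := abs_add_le (F c - F x - mF F r h (n + 1) (2 * j) * (c - x))
          (F y - F c - mF F r h (n + 1) (2 * j + 1) * (y - c))
        nlinarith [h4, h5, h1, h6, h7, h2, h3, h9, hDw]

/-- a depth with small remainder -/
theorem exists_depthA (D : ℕ → ℕ → ℝ) (β : ℝ) (J : ℕ) (B ε : ℝ) (hε : 0 < ε)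
    (hB : ∀ M, ∑ n ∈ range M, En J D n ≤ B) (M : ℕ) :
    ∃ d, ∑ n ∈ range M, En J (mA D β d) n ≤ 50 * B + ε * (J * β ^ 2) := by
  have hlim : Filter.Tendsto (fun d : ℕ => (9 / 10 : ℝ) ^ d * (M + d)) Filter.atTop (nhds 0) := by
    have h0 : Filter.Tendsto (fun d : ℕ => (d : ℝ) ^ 0 * (9 / 10 : ℝ) ^ d) Filter.atTop (nhds 0) :=
      tendsto_pow_const_mul_const_pow_of_abs_lt_one 0 (by rw [abs_of_pos] <;> norm_num)
    have h1 : Filter.Tendsto (fun d : ℕ => (d : ℝ) ^ 1 * (9 / 10 : ℝ) ^ d) Filter.atTop (nhds 0) :=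
      tendsto_pow_const_mul_const_pow_of_abs_lt_one 1 (by rw [abs_of_pos] <;> norm_num)
    have h := (h0.const_mul (M : ℝ)).add h1
    simp only [mul_zero, add_zero] at h
    refine h.congr fun d => ?_
    ring
  obtain ⟨d, hd⟩ := (hlim.eventually (gt_mem_nhds hε)).exists
  refine ⟨d, ?_⟩
  have h := sum_EA D β J B hB d M
  have hJ : 0 ≤ (J : ℝ) * β ^ 2 := by positivity
  nlinarith [mul_le_mul_of_nonneg_right hd.le hJ]

end Pool.Agent.H14.GSC.M
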